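import Mathlib

/-!
# Recurrence of hyperextensions: definitions and the generator lemma
-/

set_option autoImplicit false

open Set Topology TopologicalSpace

namespace Pool.Agent.Q279.HR

universe u

/-- a Furstenberg family on `ℕ = {0, 1, 2, ...}`: closed upward, without the empty set -/
structure IsFurstenberg (A : Set (Set ℕ)) : Prop where
  mono : ∀ S T : Set ℕ, S ∈ A → S ⊆ T → T ∈ A
  empty : ∅ ∉ A

/-- the `ℓ`-return set: the `n ≥ 0` with `⋂_{0 ≤ j ≤ ℓ} g^{-jn}(U) ≠ ∅` -/
def returnSet {Y : Type*} (ℓ : ℕ) (g : Y → Y) (U : Set Y) : Set ℕ :=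
  {n | (⋂ j ∈ Set.Icc 0 ℓ, g^[j * n] ⁻¹' U).Nonempty}

/-- `(Y, g)` is topologically `(ℓ, A)`-recurrent -/
def Recurrent {Y : Type*} [TopologicalSpace Y] (ℓ : ℕ) (A : Set (Set ℕ)) (g : Y → Y) : Prop :=
  ∀ U : Set Y, IsOpen U → U.Nonempty → returnSet ℓ g U ∈ A

lemma mem_returnSet {Y : Type*} {ℓ : ℕ} {g : Y → Y} {U : Set Y} {n : ℕ} :
    n ∈ returnSet ℓ g U ↔ ∃ y, ∀ j ≤ ℓ, g^[j * n] y ∈ U := by
  simp only [returnSet, Set.mem_ofPred_eq, Set.Nonempty, Set.mem_iInter, Set.mem_Icc,
    Set.mem_preimage]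
  constructor
  · rintro ⟨y, hy⟩
    exact ⟨y, fun j hj => hy j ⟨Nat.zero_le _, hj⟩⟩
  · rintro ⟨y, hy⟩
    exact ⟨y, fun j hj => hy j hj.2⟩

section gen

variable {X : Type u} [AddCommGroup X] [Module ℝ X] [TopologicalSpace X]
  [IsTopologicalAddGroup X] [ContinuousSMul ℝ X]

/-- the vectors generated by the `s j` under operators which commute with `f` -/
def G (f : X →L[ℝ] X) {ι : Type u} [Fintype ι] (s : ι → X) : Submodule ℝ X where
  carrier := {x | ∃ A : ι → (X →L[ℝ] X), (∀ j, Commute (A j) f) ∧ x = ∑ j, A j (s j)}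
  zero_mem' := ⟨fun _ => 0, fun _ => Commute.zero_left f, by simp⟩
  add_mem' := by
    rintro x y ⟨A, hA, rfl⟩ ⟨B, hB, rfl⟩
    refine ⟨fun j => A j + B j, fun j => (hA j).add_left (hB j), ?_⟩
    simp [Finset.sum_add_distrib]
  smul_mem' := by
    rintro c x ⟨A, hA, rfl⟩
    refine ⟨fun j => c • A j, fun j => (hA j).smul_left c, ?_⟩
    simp [Finset.smul_sum]

lemma mem_G_self (f : X →L[ℝ] X) {ι : Type u} [Fintype ι] [DecidableEq ι] (s : ι → X) (j : ι) :
    s j ∈ G f s := by
  refine ⟨fun i => if i = j then 1 else 0, fun i => ?_, ?_⟩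
  · show Commute (if i = j then 1 else 0) f
    split_ifs
    · exact Commute.one_left f
    · exact Commute.zero_left f
  · rw [Finset.sum_eq_single j]
    · simp
    · intro b _ hb
      simp [hb]
    · simp

lemma G_apply (f : X →L[ℝ] X) {ι : Type u} [Fintype ι] (s : ι → X) {x : X} (hx : x ∈ G f s)
    (B : X →L[ℝ] X) (hB : Commute B f) : B x ∈ G f s := by
  obtain ⟨A, hA, rfl⟩ := hx
  refine ⟨fun j => B * A j, fun j => hB.mul_left (hA j), ?_⟩
  simp [map_sum]

/-- the index types of generating tuples -/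
def Gen (f : X →L[ℝ] X) {κ : Type u} (O : Set (κ → X)) (r : ℕ) : Prop :=
  ∃ (ι : Type u) (_ : Fintype ι) (_ : Nonempty ι), Fintype.card ι = r ∧
    ∃ s : ι → X, ∃ y ∈ O, ∀ i, y i ∈ G f s

/-- a nonempty open set of tuples is reached by a minimal number `r` of generators; if two
points of the simplex on these generators are the positions of `c` and `B c`, where `B` commutes with
`f`, then they are close -/
lemma exists_minimal (f : X →L[ℝ] X) {κ : Type u} [Fintype κ] [Nonempty κ] (O : Set (κ → X))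
    (hne : O.Nonempty) :
    ∃ r, Gen f O r ∧ ∀ r' < r, ¬ Gen f O r' := by
  classical
  have hex : ∃ r, Gen f O r := by
    obtain ⟨y, hy⟩ := hne
    exact ⟨Fintype.card κ, κ, inferInstance, inferInstance, rfl, y, y, hy, fun i => mem_G_self f y i⟩
  exact ⟨Nat.find hex, Nat.find_spec hex, fun r' h => Nat.find_min hex h⟩

/-- the algebraic step: two distinct positions in the simplex give two of the generators -/
lemma algebraic (f : X →L[ℝ] X) {ι : Type u} [Fintype ι] [DecidableEq ι] (s : ι → X)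
    (a b : ι → ℝ) (ha : ∀ i, 0 ≤ a i) (hb : ∀ i, 0 ≤ b i) (ha1 : ∑ i, a i = 1)
    (hb1 : ∑ i, b i = 1) (c : X) (B : X →L[ℝ] X) (hB : Commute B f) (η : ℝ) (hη : 0 < η) (k : ι)
    (hk : η ≤ |a k - b k|) :
    ∃ (ι' : Type u) (_ : Fintype ι') (_ : Nonempty ι'), Fintype.card ι' + 1 = Fintype.card ι ∧
      ∃ (s' : ι' → X) (t : ι → X), (∀ j, t j ∈ G f s') ∧
        ∀ j, ∃ α β : ℝ, |α| ≤ Fintype.card ι / η ∧ |β| ≤ Fintype.card ι / η ∧
          t j - s j = α • (c - ∑ i, a i • s i) + β • (B c - ∑ i, b i • s i) := by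
  have hcard : (0 : ℝ) < Fintype.card ι := by
    have : 0 < Fintype.card ι := Fintype.card_pos_iff.mpr ⟨k⟩
    exact_mod_cast this
  have hsum : ∑ l, (a k * b l - a l * b k) = a k - b k := by
    rw [Finset.sum_sub_distrib, ← Finset.mul_sum, ← Finset.sum_mul, ha1, hb1]
    ring
  obtain ⟨l, hl⟩ : ∃ l, η / Fintype.card ι ≤ |a k * b l - a l * b k| := by
    by_contra hcon
    push Not at hcon
    have h1 : |∑ l, (a k * b l - a l * b k)| < η := by
      calc |∑ l, (a k * b l - a l * b k)| ≤ ∑ l, |a k * b l - a l * b k| :=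
            Finset.abs_sum_le_sum_abs _ _
        _ < ∑ _l : ι, η / Fintype.card ι := by
            refine Finset.sum_lt_sum_of_nonempty ⟨k, Finset.mem_univ _⟩ fun i _ => hcon i
        _ = η := by
            rw [Finset.sum_const, Finset.card_univ, nsmul_eq_mul]
            field_simp
    rw [hsum] at h1
    linarith
  set D := a k * b l - a l * b k with hD
  have hDpos : 0 < |D| := lt_of_lt_of_le (by positivity) hl
  have hD0 : D ≠ 0 := abs_pos.mp hDpos
  have hkl : k ≠ l := by
    rintro rfl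
    apply hD0
    rw [hD]
    ring
  have hale : ∀ i, a i ≤ 1 := fun i => by
    rw [← ha1]
    exact Finset.single_le_sum (fun j _ => ha j) (Finset.mem_univ i)
  have hble : ∀ i, b i ≤ 1 := fun i => by
    rw [← hb1]
    exact Finset.single_le_sum (fun j _ => hb j) (Finset.mem_univ i)
  have hbound : ∀ x : ℝ, |x| ≤ 1 → |D⁻¹ * x| ≤ Fintype.card ι / η := by
    intro x hx
    rw [abs_mul, abs_inv]
    calc |D|⁻¹ * |x| ≤ |D|⁻¹ * 1 := by gcongr
      _ = |D|⁻¹ := mul_one _
      _ ≤ (η / Fintype.card ι)⁻¹ := by gcongr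
      _ = Fintype.card ι / η := by rw [inv_div]
  have hpos : 0 ≤ (Fintype.card ι : ℝ) / η := by positivity
  -- the new generators
  let ι' := {j : ι // j ≠ l}
  let s' : ι' → X := fun j => if (j : ι) = k then c else s j
  have hc : c ∈ G f s' := by
    have := mem_G_self f s' ⟨k, hkl⟩
    simpa [s'] using this
  have hs : ∀ j, j ≠ k → j ≠ l → s j ∈ G f s' := by
    intro j hj hjl
    have := mem_G_self f s' ⟨j, hjl⟩
    simpa [s', hj] using this
  have hBc : B c ∈ G f s' := G_apply f s' hc B hB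
  -- remainders
  have hP : ∀ w : ι → ℝ, ∑ i ∈ (Finset.univ.erase k).erase l, w i • s i ∈ G f s' := by
    intro w
    refine Submodule.sum_mem _ fun i hi => ?_
    rw [Finset.mem_erase, Finset.mem_erase] at hi
    exact Submodule.smul_mem _ _ (hs i hi.2.1 hi.1)
  have hsplit : ∀ w : ι → ℝ, ∑ i, w i • s i =
      w k • s k + (w l • s l + ∑ i ∈ (Finset.univ.erase k).erase l, w i • s i) := by
    intro w
    rw [← Finset.add_sum_erase _ _ (Finset.mem_univ k),
      ← Finset.add_sum_erase _ _ (Finset.mem_erase.mpr ⟨hkl.symm, Finset.mem_univ l⟩)]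
  let P : X := ∑ i ∈ (Finset.univ.erase k).erase l, a i • s i
  let Q : X := ∑ i ∈ (Finset.univ.erase k).erase l, b i • s i
  have hPm : P ∈ G f s' := hP a
  have hQm : Q ∈ G f s' := hP b
  let tk : X := D⁻¹ • (b l • (c - P) - a l • (B c - Q))
  let tl : X := D⁻¹ • (a k • (B c - Q) - b k • (c - P))
  refine ⟨ι', inferInstance, ⟨⟨k, hkl⟩⟩, ?_, s', fun j => if j = k then tk else if j = l then tl else s j,
    ?_, ?_⟩
  · have h1 : Fintype.card ι' = Fintype.card ι - 1 := by
      simp [ι', Fintype.card_subtype_compl]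
    have h2 : 0 < Fintype.card ι := Fintype.card_pos_iff.mpr ⟨k⟩
    omega
  · intro j
    show (if j = k then tk else if j = l then tl else s j) ∈ G f s'
    split_ifs with h1 h2
    · exact Submodule.smul_mem _ _ (Submodule.sub_mem _ (Submodule.smul_mem _ _
        (Submodule.sub_mem _ hc hPm)) (Submodule.smul_mem _ _ (Submodule.sub_mem _ hBc hQm)))
    · exact Submodule.smul_mem _ _ (Submodule.sub_mem _ (Submodule.smul_mem _ _
        (Submodule.sub_mem _ hBc hQm)) (Submodule.smul_mem _ _ (Submodule.sub_mem _ hc hPm)))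
    · exact hs j h1 h2
  · intro j
    show ∃ α β : ℝ, |α| ≤ Fintype.card ι / η ∧ |β| ≤ Fintype.card ι / η ∧
      (if j = k then tk else if j = l then tl else s j) - s j =
        α • (c - ∑ i, a i • s i) + β • (B c - ∑ i, b i • s i)
    have ea := hsplit a
    have eb := hsplit b
    have hDk : D⁻¹ * (b l * a k - a l * b k) = 1 := by
      rw [show b l * a k - a l * b k = D by rw [hD]; ring, inv_mul_cancel₀ hD0]
    have hskk : s k = (D⁻¹ * (b l * a k - a l * b k)) • s k := by rw [hDk, one_smul]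
    have hsll : s l = (D⁻¹ * (b l * a k - a l * b k)) • s l := by rw [hDk, one_smul]
    split_ifs with h1 h2
    · subst h1
      refine ⟨D⁻¹ * b l, -(D⁻¹ * a l), hbound _ ?_, ?_, ?_⟩
      · rw [abs_of_nonneg (hb l)]; exact hble l
      · rw [abs_neg]
        refine hbound _ ?_
        rw [abs_of_nonneg (ha l)]; exact hale l
      · rw [ea, eb]
        show tk - s j = _
        conv_lhs => rw [hskk]
        simp only [tk, P, Q]
        module
    · subst h2
      refine ⟨-(D⁻¹ * b k), D⁻¹ * a k, ?_, hbound _ ?_, ?_⟩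
      · rw [abs_neg]
        refine hbound _ ?_
        rw [abs_of_nonneg (hb k)]; exact hble k
      · rw [abs_of_nonneg (ha k)]; exact hale k
      · rw [ea, eb]
        show tl - s j = _
        conv_lhs => rw [hsll]
        simp only [tl, P, Q]
        module
    · refine ⟨0, 0, by simpa using hpos, by simpa using hpos, ?_⟩
      simp

end gen

end Pool.Agent.Q279.HR
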