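import Pool.Agent.Q279.HR.Base

/-!
# Recurrence of hyperextensions: minimal tuples of generators are rigid
-/

set_option autoImplicit false

open Set Topology TopologicalSpace
open scoped Pointwise

namespace Pool.Agent.Q279.HR

universe u

variable {X : Type u} [AddCommGroup X] [Module ℝ X] [TopologicalSpace X]
  [IsTopologicalAddGroup X] [ContinuousSMul ℝ X]

lemma small_smul (W0 : Set X) (hW0 : W0 ∈ 𝓝 (0 : X)) (M : ℝ) (hM : 0 ≤ M) :
    ∃ W ∈ 𝓝 (0 : X), ∀ α : ℝ, |α| ≤ M → ∀ x ∈ W, α • x ∈ W0 := by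
  obtain ⟨W', ⟨hW', hbal⟩, hsub⟩ := (nhds_basis_balanced ℝ X).mem_iff.mp hW0
  have hM' : (0 : ℝ) < M + 1 := by linarith
  refine ⟨(fun x : X => (M + 1) • x) ⁻¹' W', ?_, ?_⟩
  · have hcont : Continuous fun x : X => (M + 1) • x := continuous_const_smul _
    refine hcont.continuousAt.preimage_mem_nhds ?_
    simpa using hW'
  · intro α hα x hx
    have h1 : α • x = (α / (M + 1)) • ((M + 1) • x) := by
      rw [smul_smul]
      congr 1
      field_simp
    rw [h1]
    refine hsub (hbal.smul_mem ?_ hx)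
    rw [Real.norm_eq_abs, abs_div, abs_of_pos hM', div_le_one hM']
    linarith

lemma key (f : X →L[ℝ] X) {κ : Type u} [Fintype κ] [Nonempty κ] (O : Set (κ → X))
    (hO : IsOpen O) (hne : O.Nonempty) :
    ∃ (ι : Type u) (_ : Fintype ι) (_ : Nonempty ι) (s : ι → X) (A : κ → ι → (X →L[ℝ] X)),
      (∀ i j, Commute (A i j) f) ∧ ∃ W ∈ 𝓝 (0 : X), ∀ c : ι → X, (∀ j, c j - s j ∈ W) →
        ∀ B : X →L[ℝ] X, Commute B f →
          (∀ j, ∃ b ∈ stdSimplex ℝ ι, B (c j) - ∑ i, b i • s i ∈ W) →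
            (fun i => ∑ j, A i j (B (c j))) ∈ O := by
  classical
  obtain ⟨r, ⟨ι, hι1, hι2, hcard, s, y, hyO, hyG⟩, hmin⟩ := exists_minimal f O hne
  choose A hA hyA using hyG
  refine ⟨ι, hι1, hι2, s, A, hA, ?_⟩
  -- the neighbourhood `W1`
  have hΦ : Continuous fun t : ι → X => fun i => ∑ j, A i j (s j + t j) := by
    refine continuous_pi fun i => continuous_finsetSum _ fun j _ => ?_
    exact (A i j).continuous.comp (continuous_const.add (continuous_apply j))
  have hmem : (fun t : ι → X => fun i => ∑ j, A i j (s j + t j)) ⁻¹' O ∈ 𝓝 (0 : ι → X) := by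
    refine hΦ.continuousAt.preimage_mem_nhds (hO.mem_nhds ?_)
    have : (fun i => ∑ j, A i j (s j + (0 : ι → X) j)) = y := by
      funext i
      rw [hyA i]
      simp
    rw [this]
    exact hyO
  obtain ⟨W1, hW1, hW1O⟩ : ∃ W1 ∈ 𝓝 (0 : X), ∀ t : ι → X, (∀ j, t j - s j ∈ W1) →
      (fun i => ∑ j, A i j (t j)) ∈ O := by
    rw [nhds_pi, Filter.mem_pi] at hmem
    obtain ⟨I, hI, V, hV, hVsub⟩ := hmem
    refine ⟨⋂ j, V j, Filter.iInter_mem.mpr fun j => by simpa using hV j, fun t ht => ?_⟩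
    have h2 : (fun j => t j - s j) ∈ I.pi V := by
      intro j _
      exact Set.mem_iInter.mp (ht j) j
    have h3 := hVsub h2
    simpa using h3
  obtain ⟨W2, hW2, hW2sub⟩ := exists_nhds_zero_half hW1
  -- the number `η`
  obtain ⟨η, hη, hηsub⟩ : ∃ η : ℝ, 0 < η ∧ ∀ d : ι → ℝ, (∀ i, |d i| < η) →
      ∑ i, d i • s i ∈ W2 := by
    have hcont : Continuous fun d : ι → ℝ => ∑ i, d i • s i :=
      continuous_finsetSum _ fun i _ => (continuous_apply i).smul continuous_const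
    have h0 : (fun d : ι → ℝ => ∑ i, d i • s i) ⁻¹' W2 ∈ 𝓝 (0 : ι → ℝ) := by
      refine hcont.continuousAt.preimage_mem_nhds ?_
      simpa using hW2
    obtain ⟨η, hη, hsub⟩ := Metric.mem_nhds_iff.mp h0
    refine ⟨η, hη, fun d hd => hsub ?_⟩
    rw [mem_ball_zero_iff, pi_norm_lt_iff hη]
    intro i
    rw [Real.norm_eq_abs]
    exact hd i
  obtain ⟨W3, hW3, hW3sub⟩ := small_smul W2 hW2 (Fintype.card ι / η) (by positivity)
  have hclose : ∀ a ∈ stdSimplex ℝ ι, ∀ b ∈ stdSimplex ℝ ι, ∀ c : X, ∀ B : X →L[ℝ] X,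
      Commute B f → c - ∑ i, a i • s i ∈ W3 → B c - ∑ i, b i • s i ∈ W3 →
      ∀ k, |a k - b k| < η := by
    intro a ha b hb c B hB h1 h2 k
    by_contra hk
    push Not at hk
    obtain ⟨ι', hf', hn', hc', s', t, htG, ht⟩ :=
      algebraic f s a b ha.1 hb.1 ha.2 hb.2 c B hB η hη k hk
    refine hmin (Fintype.card ι') (by omega) ⟨ι', hf', hn', rfl, s',
      fun i => ∑ j, A i j (t j), ?_, ?_⟩
    · refine hW1O t fun j => ?_
      obtain ⟨α, β, hα, hβ, he⟩ := ht j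
      rw [he]
      exact hW2sub _ (hW3sub α hα _ h1) _ (hW3sub β hβ _ h2)
    · intro i
      exact Submodule.sum_mem _ fun j _ => G_apply f s' (htG j) (A i j) (hA i j)
  refine ⟨W2 ∩ W3, Filter.inter_mem hW2 hW3, fun c hc B hB hb => ?_⟩
  refine hW1O (fun j => B (c j)) fun j => ?_
  obtain ⟨b, hb, hbW⟩ := hb j
  have e1 : ∑ i, (Pi.single j (1 : ℝ) : ι → ℝ) i • s i = s j := by
    rw [Finset.sum_eq_single j]
    · simp
    · intro i _ hi
      simp [Pi.single_eq_of_ne hi]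
    · simp
  have h1 := hclose (Pi.single j 1) (single_mem_stdSimplex ℝ j) b hb (c j) B hB
    (by rw [e1]; exact (hc j).2) hbW.2
  have h2 : B (c j) - s j = (B (c j) - ∑ i, b i • s i) +
      ∑ i, (b i - (Pi.single j (1 : ℝ) : ι → ℝ) i) • s i := by
    simp only [sub_smul, Finset.sum_sub_distrib, e1]
    abel
  show B (c j) - s j ∈ W1
  rw [h2]
  refine hW2sub _ hbW.1 _ (hηsub _ fun i => ?_)
  rw [abs_sub_comm]
  exact h1 i

end Pool.Agent.Q279.HR
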