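import Pool.Agent.Q279.HR.Key

/-!
# Recurrence of hyperextensions: the two directions
-/

set_option autoImplicit false

open Set Topology TopologicalSpace
open scoped Pointwise

namespace Pool.Agent.Q279.HR

universe u

/-- the hyperextension `K ↦ f(K)` on the nonempty compact sets, with the Vietoris topology -/
def hyper {X : Type u} [TopologicalSpace X] (f : X → X) (hf : Continuous f) :
    NonemptyCompacts X → NonemptyCompacts X := NonemptyCompacts.map f hf

/-- the nonempty compact convex sets, with the topology induced from the Vietoris topology -/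
def CompactConvex (X : Type u) [AddCommGroup X] [Module ℝ X] [TopologicalSpace X] : Type u :=
  {K : NonemptyCompacts X // Convex ℝ (K : Set X)}

instance (X : Type u) [AddCommGroup X] [Module ℝ X] [TopologicalSpace X] :
    TopologicalSpace (CompactConvex X) :=
  inferInstanceAs (TopologicalSpace {K : NonemptyCompacts X // Convex ℝ (K : Set X)})

variable {X : Type u} [AddCommGroup X] [Module ℝ X] [TopologicalSpace X]

/-- the restriction of the hyperextension to the nonempty compact convex sets -/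
def hyperConvex (f : X →L[ℝ] X) : CompactConvex X → CompactConvex X := fun K =>
  ⟨hyper f f.continuous K.1, by
    show Convex ℝ (f '' (K.1 : Set X))
    exact K.2.linear_image (f : X →ₗ[ℝ] X)⟩

lemma coe_iter (f : X → X) (hf : Continuous f) (m : ℕ) (K : NonemptyCompacts X) :
    (((hyper f hf)^[m] K : NonemptyCompacts X) : Set X) = f^[m] '' (K : Set X) := by
  induction m generalizing K with
  | zero => simp
  | succ m ih =>
    rw [Function.iterate_succ_apply, ih]
    show f^[m] '' (f '' (K : Set X)) = _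
    rw [Set.image_image, Function.iterate_succ]
    rfl

lemma coe_iter_convex (f : X →L[ℝ] X) (m : ℕ) (K : CompactConvex X) :
    ((((hyperConvex f)^[m] K).1 : NonemptyCompacts X) : Set X) = f^[m] '' (K.1 : Set X) := by
  have h : ∀ m (K : CompactConvex X), ((hyperConvex f)^[m] K).1 = (hyper f f.continuous)^[m] K.1 := by
    intro m
    induction m with
    | zero => intro K; rfl
    | succ m ih =>
      intro K
      rw [Function.iterate_succ_apply, ih, Function.iterate_succ_apply]
      rfl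
  rw [h, coe_iter]

variable [IsTopologicalAddGroup X] [ContinuousSMul ℝ X]

lemma pow_apply (f : X →L[ℝ] X) (m : ℕ) (x : X) : (f ^ m) x = f^[m] x := by
  induction m generalizing x with
  | zero => simp
  | succ m ih =>
    rw [pow_succ, mul_apply_eq_comp, ih, Function.iterate_succ_apply]

omit [TopologicalSpace X] [IsTopologicalAddGroup X] [ContinuousSMul ℝ X] in
lemma hull_subset {ι : Type u} [Fintype ι] (s : ι → X) :
    convexHull ℝ (range s) ⊆ (Fintype.linearCombination ℝ s) '' (stdSimplex ℝ ι) := by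
  classical
  refine convexHull_min ?_ ((convex_stdSimplex ℝ ι).linear_image _)
  rintro _ ⟨j, rfl⟩
  exact ⟨Pi.single j 1, single_mem_stdSimplex ℝ j, by simp⟩

/-- from convex to compact sets -/
lemma backward (f : X →L[ℝ] X) (ℓ : ℕ) (U : Set (NonemptyCompacts X)) (hU : IsOpen U)
    (hne : U.Nonempty) :
    ∃ U' : Set (CompactConvex X), IsOpen U' ∧ U'.Nonempty ∧
      returnSet ℓ (hyperConvex f) U' ⊆ returnSet ℓ (hyper f f.continuous) U := by
  classical
  obtain ⟨K0, hK0⟩ := hne
  obtain ⟨V, hV, hK0V, hVU⟩ := NonemptyCompacts.isTopologicalBasis.exists_subset_of_mem_open hK0 hU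
  obtain ⟨u, ⟨hufin, hune, huo⟩, rfl⟩ := hV
  obtain ⟨hK1, hK2⟩ := hK0V
  have : Fintype u := hufin.fintype
  have : Nonempty u := hune.to_subtype
  -- the open set of tuples
  let O : Set (u → X) := Set.pi Set.univ fun i => (i : Set X)
  have hO : IsOpen O := isOpen_set_pi Set.finite_univ fun i _ => huo i i.2
  have hOne : O.Nonempty := by
    choose x hx using fun i : u => hK2 i i.2
    exact ⟨x, fun i _ => (hx i).2⟩
  obtain ⟨ι, hι1, hι2, s, A, hA, W, hW, hkey⟩ := key f O hO hOne
  obtain ⟨W', hW'sub, hW'o, hW'0⟩ := mem_nhds_iff.mp hW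
  let Δ : Set X := convexHull ℝ (range s)
  have hΔfin : IsCompact Δ := (Set.finite_range s).isCompact_convexHull ℝ
  have hsΔ : ∀ j, s j ∈ Δ := fun j => subset_convexHull ℝ _ ⟨j, rfl⟩
  let U' : Set (CompactConvex X) := {C | (C.1 : Set X) ⊆ Δ + W' ∧
    ∀ j, ((C.1 : Set X) ∩ ((s j) +ᵥ W')).Nonempty}
  have hopen : IsOpen U' := by
    have h1 : IsOpen {C : CompactConvex X | (C.1 : Set X) ⊆ Δ + W'} :=
      (NonemptyCompacts.isOpen_subsets_of_isOpen (hW'o.add_left (s := Δ))).preimage
        continuous_subtype_val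
    have h2 : ∀ j, IsOpen {C : CompactConvex X | ((C.1 : Set X) ∩ ((s j) +ᵥ W')).Nonempty} :=
      fun j => (NonemptyCompacts.isOpen_inter_nonempty_of_isOpen (hW'o.vadd (s j))).preimage
        continuous_subtype_val
    have h3 : U' = {C : CompactConvex X | (C.1 : Set X) ⊆ Δ + W'} ∩
        ⋂ j, {C : CompactConvex X | ((C.1 : Set X) ∩ ((s j) +ᵥ W')).Nonempty} := by
      ext C
      simp only [U', Set.mem_ofPred_eq, Set.mem_inter_iff, Set.mem_iInter]
    rw [h3]
    exact h1.inter (isOpen_iInter_of_finite h2)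
  let C0 : CompactConvex X := ⟨⟨⟨Δ, hΔfin⟩, ⟨s (Classical.arbitrary ι), hsΔ _⟩⟩,
    convex_convexHull ℝ _⟩
  refine ⟨U', hopen, ⟨C0, ?_, ?_⟩, ?_⟩
  · show Δ ⊆ Δ + W'
    intro x hx
    exact ⟨x, hx, 0, hW'0, add_zero x⟩
  · intro j
    refine ⟨s j, hsΔ j, ?_⟩
    exact ⟨0, hW'0, by simp⟩
  · intro n hn
    rw [mem_returnSet] at hn ⊢
    obtain ⟨C, hC⟩ := hn
    have hC0 := hC 0 (Nat.zero_le _)
    simp only [zero_mul, Function.iterate_zero, id] at hC0
    choose c hcC hcW using hC0.2
    have hcW' : ∀ j, c j - s j ∈ W := by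
      intro j
      obtain ⟨w, hw, he⟩ := hcW j
      have : c j - s j = w := by
        rw [← he]
        show s j + w - s j = w
        abel
      rw [this]
      exact hW'sub hw
    let y : u → X := fun i => ∑ j, A i j (c j)
    have hy : ∀ i ≤ ℓ, ∀ k : u, f^[i * n] (y k) ∈ (k : Set X) := by
      intro i hi k
      have h1 : ∀ j, ∃ b ∈ stdSimplex ℝ ι, (f ^ (i * n)) (c j) - ∑ i, b i • s i ∈ W := by
        intro j
        have h2 := (hC i hi).1
        rw [coe_iter_convex] at h2
        obtain ⟨d, hd, w, hw, he⟩ := h2 ⟨c j, hcC j, rfl⟩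
        obtain ⟨b, hb, rfl⟩ := hull_subset s hd
        refine ⟨b, hb, ?_⟩
        have h8 : (f ^ (i * n)) (c j) - ∑ i, b i • s i = w := by
          rw [pow_apply, ← he]
          show Fintype.linearCombination ℝ s b + w - _ = w
          rw [Fintype.linearCombination_apply]
          abel
        rw [h8]
        exact hW'sub hw
      have h3 := hkey c hcW' (f ^ (i * n)) ((Commute.refl f).pow_left _) h1
      have h4 := h3 k (Set.mem_univ _)
      have h5 : f^[i * n] (y k) = ∑ j, A k j ((f ^ (i * n)) (c j)) := by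
        rw [← pow_apply, map_sum]
        refine Finset.sum_congr rfl fun j _ => ?_
        have h6 : Commute (A k j) (f ^ (i * n)) := (hA k j).pow_right _
        have h7 := congrArg (fun T : X →L[ℝ] X => T (c j)) h6.eq
        simpa using h7.symm
      rw [h5]
      exact h4
    refine ⟨⟨⟨range y, (Set.finite_range y).isCompact⟩, Set.range_nonempty y⟩, fun i hi => hVU ?_⟩
    refine ⟨?_, ?_⟩
    · rw [coe_iter]
      rintro _ ⟨_, ⟨k, rfl⟩, rfl⟩
      exact ⟨k, k.2, hy i hi k⟩
    · intro k hk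
      rw [coe_iter]
      exact ⟨f^[i * n] (y ⟨k, hk⟩), ⟨_, ⟨⟨k, hk⟩, rfl⟩, rfl⟩, hy i hi ⟨k, hk⟩⟩

/-- from compact to convex sets -/
lemma forward [LocallyConvexSpace ℝ X] (f : X →L[ℝ] X) (ℓ : ℕ) (U : Set (CompactConvex X))
    (hU : IsOpen U) (hne : U.Nonempty) :
    ∃ V : Set (NonemptyCompacts X), IsOpen V ∧ V.Nonempty ∧
      returnSet ℓ (hyper f f.continuous) V ⊆ returnSet ℓ (hyperConvex f) U := by
  classical
  obtain ⟨C0, hC0⟩ := hne
  obtain ⟨U1, hU1, rfl⟩ := isOpen_induced_iff.mp hU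
  obtain ⟨V1, hV1, hC0V, hVU⟩ :=
    NonemptyCompacts.isTopologicalBasis.exists_subset_of_mem_open (show C0.1 ∈ U1 from hC0) hU1
  obtain ⟨u, ⟨hufin, hune, huo⟩, rfl⟩ := hV1
  obtain ⟨hK1, hK2⟩ := hC0V
  have : Fintype u := hufin.fintype
  have : Nonempty u := hune.to_subtype
  choose x hx using fun i : u => hK2 i i.2
  -- the neighbourhood
  obtain ⟨Wa, hWa, hWasub⟩ := compact_open_separated_add_right C0.1.isCompact
    (isOpen_sUnion huo) hK1
  have hWb : ∀ i : u, {w : X | x i + w ∈ (i : Set X)} ∈ 𝓝 (0 : X) := by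
    intro i
    have hcont : Continuous fun w : X => x i + w := continuous_const.add continuous_id
    refine hcont.continuousAt.preimage_mem_nhds ((huo i i.2).mem_nhds ?_)
    simpa using (hx i).2
  obtain ⟨W, ⟨hW0, hWo, hWconv⟩, hWsub⟩ := (LocallyConvexSpace.convex_open_basis_zero ℝ X).mem_iff.mp
    (Filter.inter_mem hWa (Filter.iInter_mem.mpr hWb))
  let V : Set (NonemptyCompacts X) := {K | (K : Set X) ⊆ (C0.1 : Set X) + W ∧
    ∀ i : u, ((K : Set X) ∩ ((x i) +ᵥ W)).Nonempty}
  have hopen : IsOpen V := by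
    have h1 : IsOpen {K : NonemptyCompacts X | (K : Set X) ⊆ (C0.1 : Set X) + W} :=
      NonemptyCompacts.isOpen_subsets_of_isOpen (hWo.add_left)
    have h2 : ∀ i : u, IsOpen {K : NonemptyCompacts X | ((K : Set X) ∩ ((x i) +ᵥ W)).Nonempty} :=
      fun i => NonemptyCompacts.isOpen_inter_nonempty_of_isOpen (hWo.vadd (x i))
    have h3 : V = {K : NonemptyCompacts X | (K : Set X) ⊆ (C0.1 : Set X) + W} ∩
        ⋂ i : u, {K : NonemptyCompacts X | ((K : Set X) ∩ ((x i) +ᵥ W)).Nonempty} := by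
      ext K
      simp only [V, Set.mem_ofPred_eq, Set.mem_inter_iff, Set.mem_iInter]
    rw [h3]
    exact h1.inter (isOpen_iInter_of_finite h2)
  refine ⟨V, hopen, ⟨C0.1, ?_, ?_⟩, ?_⟩
  · intro z hz
    exact ⟨z, hz, 0, hW0, add_zero z⟩
  · intro i
    exact ⟨x i, (hx i).1, 0, hW0, by simp⟩
  · intro n hn
    rw [mem_returnSet] at hn ⊢
    obtain ⟨K, hK⟩ := hn
    have hch : ∀ (i : Fin (ℓ + 1)) (k : u), ∃ z ∈ (K : Set X), f^[i * n] z ∈ (x k) +ᵥ W := by
      intro i k
      obtain ⟨w, hw1, hw2⟩ := (hK i (by omega)).2 k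
      rw [coe_iter] at hw1
      obtain ⟨z, hz, rfl⟩ := hw1
      exact ⟨z, hz, hw2⟩
    choose z hzK hzW using hch
    let S : Set X := range fun p : Fin (ℓ + 1) × u => z p.1 p.2
    have hSfin : S.Finite := Set.finite_range _
    have hSK : S ⊆ (K : Set X) := by
      rintro _ ⟨p, rfl⟩
      exact hzK _ _
    let C : CompactConvex X := ⟨⟨⟨convexHull ℝ S, hSfin.isCompact_convexHull ℝ⟩,
      (Set.range_nonempty _).mono (subset_convexHull ℝ S)⟩, convex_convexHull ℝ S⟩
    refine ⟨C, fun i hi => hVU ?_⟩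
    refine ⟨?_, ?_⟩
    · rw [coe_iter_convex]
      show f^[i * n] '' (convexHull ℝ S) ⊆ _
      have e : f^[i * n] '' (convexHull ℝ S) = (f ^ (i * n)) '' (convexHull ℝ S) := by
        refine Set.image_congr fun a _ => (pow_apply f _ a).symm
      rw [e]
      have e2 : ((f ^ (i * n) : X →L[ℝ] X) : X → X) '' (convexHull ℝ S) =
          convexHull ℝ ((f ^ (i * n) : X →L[ℝ] X) '' S) :=
        ((f ^ (i * n) : X →L[ℝ] X) : X →ₗ[ℝ] X).image_convexHull S
      rw [e2]
      refine (convexHull_min ?_ (C0.2.add hWconv)).trans ((Set.add_subset_add_left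
        (fun w hw => (hWsub hw).1)).trans hWasub)
      rintro _ ⟨a, ha, rfl⟩
      have h1 := (hK i hi).1
      rw [coe_iter] at h1
      refine h1 ⟨a, hSK ha, ?_⟩
      exact (pow_apply f _ a).symm
    · intro k hk
      rw [coe_iter_convex]
      refine ⟨f^[i * n] (z ⟨i, by omega⟩ ⟨k, hk⟩), ⟨_, subset_convexHull ℝ S ⟨(⟨i, by omega⟩, ⟨k, hk⟩), rfl⟩,
        rfl⟩, ?_⟩
      obtain ⟨w, hw, he⟩ := hzW ⟨i, by omega⟩ ⟨k, hk⟩
      have h2 := (Set.mem_iInter.mp (hWsub hw).2) ⟨k, hk⟩
      have h3 : x ⟨k, hk⟩ + w = f^[i * n] (z ⟨i, by omega⟩ ⟨k, hk⟩) := he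
      rw [← h3]
      exact h2

end Pool.Agent.Q279.HR
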